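import Pool.Agent.Y916.Al.WinP

/-!
# Logarithms in a short window around an algebraic point: at most `τ` exceptional numbers, whatever `τ` constants the
relation uses
-/

set_option autoImplicit false

namespace Pool.Agent.Results.MP_60829e_nt.AlgebraicWindows

theorem result (r d δ τ m A : ℕ) : ∃ E : ℕ, ∀ (H : ℕ) (ξ : ℂ), ((H : ℝ) + 2) ^ E ≤ ‖ξ‖ →
    (∃ p : Polynomial ℤ, p ≠ 0 ∧ p.natDegree ≤ m ∧ (∀ j, |(p.coeff j : ℝ)| ≤ ‖ξ‖ ^ A) ∧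
      Polynomial.aeval ξ p = 0) →
    ∀ w : Fin τ → ℂ, ∃ S : Finset ℂ, S.card ≤ τ ∧
      ∀ β : Fin r → ℂ, Function.Injective β → (∀ i, β i ∉ S ∧ β i ≠ 0) →
      (∀ i, ∃ p : Polynomial ℤ, p ≠ 0 ∧ p.natDegree ≤ d ∧ (∀ j, |p.coeff j| ≤ (H : ℤ)) ∧
        Polynomial.aeval (β i) p = 0) →
      ∀ K : IntermediateField ℚ ℂ, FiniteDimensional ℚ K → Module.finrank ℚ K ≤ d →
      ∀ l : Fin r → ℂ, (∀ i, ∃ a : K, a ≠ 0 ∧
        l i - a * Complex.log (1 + β i / ξ) ∈ Submodule.span K (insert 1 (Set.range w))) →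
      ∀ P : MvPolynomial (Fin τ ⊕ Fin r) K, P.totalDegree ≤ δ → MvPolynomial.aeval (Sum.elim w l) P = 0 →
      MvPolynomial.aeval (Sum.elim (fun j => MvPolynomial.C (w j)) MvPolynomial.X) P
        = (0 : MvPolynomial (Fin r) ℂ) := by
  obtain ⟨E, -, hE⟩ := Pool.Agent.Y916.Al.windowP r d δ τ 1 1 m A
  refine ⟨E, fun H ξ hξ hξp w => ?_⟩
  obtain ⟨S, hS, h⟩ := hE H ξ hξ hξp (Fin τ) w Finset.univ (by rw [Finset.card_univ, Fintype.card_fin])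
    (Pool.Agent.Y916.Om.Dom.univ w)
  exact ⟨S, hS, fun β hinj hβ hβa => h β hinj fun i => ⟨(hβ i).1, (hβ i).2, hβa i⟩⟩

end Pool.Agent.Results.MP_60829e_nt.AlgebraicWindows
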