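import Pool.Agent.Y787.AS.VarFin

/-!
# Logarithms of algebraic numbers on an arbitrary variety: the expected number, up to a bounded
power

Let `l_1, ..., l_N` be logarithms of algebraic numbers which are linearly independent over `ℚ`, and
let `V` be the zero set in `ℂ ^ m` of polynomials with arbitrary complex coefficients.  If the `l_j`
are algebraically independent and `V` is defined over the algebraic numbers, then the point `A l`
given by an integer `m × N` matrix `A` lies in `V` only for a trivial reason: the columns of `A` lie
in a rational linear space contained in `V`.  We show for every `V`: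

* Counting.  Let `ρ` be the greatest dimension of a rational subspace `R` of `ℚ ^ m` such that `V`
  contains a translate `A₀ l + R_ℂ` for some integer matrix `A₀`.  The number of the integer matrices
  `A` with entries of absolute value at most `H` and `A l ∈ V` is at least `H ^ (ρ N) / κ` and at
  most `κ H ^ (ρ N + (m - ρ) (m - 1))`.  So the exponent is `ρ N` up to a quantity which does not
  depend on `N`, on the degrees, or on the coefficients.
* Dimension.  Let `W` be a space of finite dimension over the field `ℚ̄` of algebraic numbers which
  consists of linear forms in `1` and logarithms of algebraic numbers.  The points `y` of `V` with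
  coordinates in `W` such that `V` contains no translate `y + R_ℂ` of a linear space `R` defined over
  `ℚ̄` of dimension greater than `ρ` lie in an algebraic subset of `W ^ m` of dimension at most
  `ρ dim W + (m - ρ) (m - 1)`.

The starting result `MP_c82530_nt.PointsOnComplexVarieties` bounds the points at which `V` has at
most a `ρ`-dimensional space of rational tangent vectors.  Here a large family of points produces
rational linear spaces of higher dimension which are contained in `V` itself, not only in a tangent
space.

The proof (`Y787.AS.Step`, `Abs`, `Germ`, `Fam`): take a generic point `y` of a family of points of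
`V`, over the field of germs along an ultrafilter, the derivations `D` of the coordinates in the
family, and start with `R` the whole space and `S` the span of the equations.  The polynomials of `S`
vanish at `y`, hence `∑ D(y_i) (∂G/∂Y_i)(y) = 0` for `G` in `S`; a generic `G` in `S` and the
hyperplane case of the linear subgroup theorem show that up to `v (v - 1)` dimensions the
derivations move `y` in a rational space `R'` of codimension `v` in `R`, along which the first
derivatives of the elements of `S` vanish at `y`, and up to `v dim R'` further dimensions they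
preserve `R'`.  Adding to `S` the derivatives of its elements in the directions of `R'` and repeating
the argument, one arrives at a rational space `R` in whose directions all higher derivatives of the
equations vanish at `y`.
-/

set_option autoImplicit false

namespace Pool.Agent.Results.MP_60829e_nt.ExpectedExponent

open MvPolynomial

/-- The space of all linear combinations, with algebraic coefficients, of `1` and of logarithms of
algebraic numbers. -/
noncomputable def LogForms : Submodule (algebraicClosure ℚ ℂ) ℂ :=
  Submodule.span (algebraicClosure ℚ ℂ) ({1} ∪ {z : ℂ | IsAlgebraic ℚ (Complex.exp z)})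

/-- The zero set of the polynomials `F s` contains the translate `y + R_ℂ` of the complex span of the
space `R` defined over `k`. -/
def ContainsTranslate (k : Type) [Field k] [Algebra k ℂ] {m r : ℕ}
    (F : Fin r → MvPolynomial (Fin m) ℂ) (y : Fin m → ℂ) (R : Submodule k (Fin m → k)) : Prop :=
  ∀ s, ∀ c ∈ Submodule.span ℂ {x : Fin m → ℂ | ∃ v ∈ R, x = fun i => algebraMap k ℂ (v i)},
    eval (fun i => y i + c i) (F s) = 0

/-- The point `A l`. -/
noncomputable def point {m N : ℕ} (l : Fin N → ℂ) (A : Fin m → Fin N → ℤ) : Fin m → ℂ :=
  fun i => ∑ j, (A i j : ℂ) * l j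

/-- The number of the integer matrices `A` with entries of absolute value at most `H` such that the
point `A l` is a zero of all `F s`. -/
noncomputable def number {m r N : ℕ} (F : Fin r → MvPolynomial (Fin m) ℂ) (l : Fin N → ℂ)
    (H : ℕ) : ℕ :=
  Set.ncard {A : Fin m → Fin N → ℤ | (∀ i j, |A i j| ≤ H) ∧ ∀ s, eval (point l A) (F s) = 0}

/-- The set `Z` of `m`-tuples of elements of `W` lies in an algebraic subset of dimension at most
`d`: any `d + 1` linear forms satisfy a nontrivial polynomial relation on `Z`. -/
def DimensionAtMost {K : Type} [Field K] [Algebra K ℂ] (W : Submodule K ℂ) {m : ℕ}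
    (d : ℕ) (Z : Set (Fin m → W)) : Prop :=
  ∀ φ : Fin (d + 1) → ((Fin m → W) →ₗ[K] K),
    ∃ P : MvPolynomial (Fin (d + 1)) K, P ≠ 0 ∧ ∀ y ∈ Z, eval (fun k => φ k y) P = 0

/-- **Main result.** -/
theorem result (m r : ℕ) (F : Fin r → MvPolynomial (Fin m) ℂ) :
    (∀ (N : ℕ) (l : Fin N → ℂ), (∀ j, IsAlgebraic ℚ (Complex.exp (l j))) →
      LinearIndependent ℚ l → ∀ ρ : ℕ,
      IsGreatest {d : ℕ | ∃ (A : Fin m → Fin N → ℤ) (R : Submodule ℚ (Fin m → ℚ)),
        Module.finrank ℚ R = d ∧ ContainsTranslate ℚ F (point l A) R} ρ →
      ∃ κ : ℕ, ∀ H : ℕ, κ ≤ H → H ^ (ρ * N) ≤ κ * number F l H ∧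
        number F l H ≤ κ * H ^ (ρ * N + (m - ρ) * (m - 1))) ∧
    ∀ (W : Submodule (algebraicClosure ℚ ℂ) ℂ) [FiniteDimensional (algebraicClosure ℚ ℂ) W],
      W ≤ LogForms → ∀ ρ ≤ m,
      DimensionAtMost W
        (ρ * Module.finrank (algebraicClosure ℚ ℂ) W + (m - ρ) * (m - 1))
        {y : Fin m → W | (∀ s, eval (fun i => (y i : ℂ)) (F s) = 0) ∧
          ∀ R : Submodule (algebraicClosure ℚ ℂ) (Fin m → algebraicClosure ℚ ℂ),
            ContainsTranslate (algebraicClosure ℚ ℂ) F (fun i => (y i : ℂ)) R →
            Module.finrank (algebraicClosure ℚ ℂ) R ≤ ρ} := by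
  refine ⟨?_, ?_⟩
  · intro N l halg hli ρ hρ
    obtain ⟨⟨A, R, hR1, hR2⟩, hmax⟩ := hρ
    have hρm : ρ ≤ m := by
      rw [← hR1]
      have := Submodule.finrank_le R
      rwa [Module.finrank_fintype_fun_eq_card, Fintype.card_fin] at this
    obtain ⟨κ₁, h1, h2⟩ := Pool.Agent.Y787.AS.var_lower l F A R hR2
    obtain ⟨κ₂, h3⟩ := Pool.Agent.Y787.AS.varC_count hρm l halg hli F
      (fun A' R' h => hmax ⟨A', R', rfl, h⟩)
    refine ⟨κ₁ + κ₂, fun H hH => ⟨?_, ?_⟩⟩
    · have h4 := h2 H (by omega)
      rw [hR1] at h4
      exact h4.trans (Nat.mul_le_mul_right _ (by omega))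
    · exact (h3 H (by omega)).trans (Nat.mul_le_mul_right _ (by omega))
  · intro W _ hW ρ hρ φ
    obtain ⟨P, h1, h2⟩ := Pool.Agent.Y787.AS.varC_dim W hW hρ F φ
    exact ⟨P, h1, fun y hy => h2 y hy.1 hy.2⟩

end Pool.Agent.Results.MP_60829e_nt.ExpectedExponent
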