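import Pool.Agent.Y916.Al.Lat

/-!
# Logarithms of almost all `k`-tuples of elements of a lattice of algebraic numbers
-/

set_option autoImplicit false

namespace Pool.Agent.Results.MP_60829e_nt.NumberFieldTuples

/-- the element of the lattice `ℤ ω_0 + … + ℤ ω_m` with coordinates `n` -/
noncomputable def num {m : ℕ} (ω : Fin (m + 1) → ℂ) (n : Fin (m + 1) → ℤ) : ℂ := ∑ j, (n j : ℂ) * ω j

/-- For some choice of the logarithms of the `k r` numbers `α_i + θ_j`, `α_i` the element with coordinates `n i`, and some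
number field `L` of degree at most `d`, some nonzero polynomial of total degree at most `δ` with coefficients in the
`L`-span of `V` vanishes at them. -/
def Related {k m r : ℕ} (δ d : ℕ) (V : Submodule ℚ ℂ) (ω : Fin (m + 1) → ℂ) (θ : Fin r → ℂ)
    (n : Fin k → Fin (m + 1) → ℤ) : Prop :=
  ∃ l : Fin k × Fin r → ℂ, (∀ p, Complex.exp (l p) = num ω (n p.1) + θ p.2) ∧
    ∃ L : IntermediateField ℚ ℂ, FiniteDimensional ℚ L ∧ Module.finrank ℚ L ≤ d ∧
      ∃ P : MvPolynomial (Fin k × Fin r) ℂ, P ≠ 0 ∧ P.totalDegree ≤ δ ∧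
        (∀ s, P.coeff s ∈ Submodule.span L (V : Set ℂ)) ∧ MvPolynomial.aeval l P = 0

/-- For algebraic numbers `ω_0 ≠ 0, ω_1, …, ω_m` (for instance an integral basis of a number field), distinct algebraic
numbers `θ_1, …, θ_r` and all `k`, `δ`, `d`, `D` there are `c > 0` and `C` such that for every `ℚ`-subspace `V` of `ℂ` of
dimension at most `D` and every `T ≥ 1`, at most `C T^(k (m + 1) - c)` of the `k`-tuples of elements of the lattice with
coordinates in `[-T, T]` are related. -/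
theorem result {m r : ℕ} (ω : Fin (m + 1) → ℂ) (hω : ∀ j, IsAlgebraic ℚ (ω j)) (hω0 : ω 0 ≠ 0)
    (θ : Fin r → ℂ) (hθ : ∀ j, IsAlgebraic ℚ (θ j)) (hinj : Function.Injective θ) (k δ d D : ℕ) :
    ∃ c : ℝ, 0 < c ∧ ∃ C : ℝ, ∀ V : Submodule ℚ ℂ, Module.Finite ℚ V → Module.finrank ℚ V ≤ D → ∀ T : ℕ, 1 ≤ T →
      {n : Fin k → Fin (m + 1) → ℤ | (∀ i j, |n i j| ≤ T) ∧ Related δ d V ω θ n}.Finite ∧
      ({n : Fin k → Fin (m + 1) → ℤ | (∀ i j, |n i j| ≤ T) ∧ Related δ d V ω θ n}.ncard : ℝ) ≤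
        C * (T : ℝ) ^ (((k * (m + 1) : ℕ) : ℝ) - c) :=
  Pool.Agent.Y916.Al.lattice_nf ω hω hω0 θ hθ hinj k δ d D

end Pool.Agent.Results.MP_60829e_nt.NumberFieldTuples
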