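import Mathlib
import Pool.Agent.Y918.OL.Only

/-!
# Random tuples of logarithms satisfy only linear relations modulo linear forms in logarithms

Let `𝓛(γ)` be the space of all linear combinations, with algebraic coefficients, of `1`, of finitely
many given complex numbers `γ_1, …, γ_g` and of arbitrary logarithms of algebraic numbers.  Let
`t_1, …, t_l` be complex numbers which satisfy no polynomial relation of degree `< D` over the
algebraic numbers.  For every `j ≤ n` let `λ_{j,1}, …, λ_{j,k}` be arbitrary logarithms of algebraic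
numbers which are linearly independent over `ℚ` (for different `j` they may be the same), and let `ζ_j`
be an arbitrary complex number, for instance `0`.  For a matrix `a = (a_{j,i})` with entries in a finite
set `A` of rational numbers, for instance `{0, 1}`, let

  `L_j = ζ_j + ∑_i a_{j,i} λ_{j,i}`.

For all but `C |A|^(n k - δ k)` of the `|A|^(n k)` matrices `a` every polynomial `P(T, Y)` with algebraic
coefficients, of degree at most `D`, which takes at `(t, L_1, …, L_n)` a value in `𝓛(γ)`, is of the form
`P₀(T) + c_1 Y_1 + ⋯ + c_n Y_n`.  Here `k ≥ k₀`, and `k₀`, `C` and `δ > 0` depend only on `l`, `n`, `g`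
and `D`, but not on `λ`, `ζ`, `γ`, `t` and `A`.

For `l = g = 0` and `ζ = 0` this says in particular that the logarithms of `n` random products of `k`
given multiplicatively independent algebraic numbers satisfy no relation of degree at most `D` over the
field of algebraic numbers, with exponentially few exceptions, and that moreover no nonlinear
polynomial of degree at most `D` in them is a linear form in logarithms of algebraic numbers.

The proof.  By the strong six exponentials theorem of D. Roy and Baker's theorem, cubes in sufficiently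
many linearly independent directions contain a point without exceptional relations
(`Pool.Agent.H351R3.Log.key2`, from the starting library).  So the exceptional parameters contain no
nondegenerate cube, and an iterated Cauchy-Schwarz inequality shows that they are exponentially rare
(`Pool.Agent.Y918.OL.cube_count`).
-/

set_option autoImplicit false

namespace Pool.Agent.Results.MP_60829e_nt.RandomOnlyLinear

/-- The space of all linear combinations with algebraic coefficients of `1`, of the numbers `γ j` and
of logarithms of algebraic numbers. -/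
noncomputable def LinForms {g : ℕ} (γ : Fin g → ℂ) : Submodule (algebraicClosure ℚ ℂ) ℂ :=
  Submodule.span (algebraicClosure ℚ ℂ)
    ({1} ∪ {z : ℂ | IsAlgebraic ℚ (Complex.exp z)} ∪ Set.range γ)

/-- The numbers `t i` satisfy no nonzero polynomial relation of degree less than `D` with algebraic
coefficients. -/
def NoRelationBelow (D : ℕ) {l : ℕ} (t : Fin l → ℂ) : Prop :=
  ∀ P : MvPolynomial (Fin l) (algebraicClosure ℚ ℂ), P.totalDegree < D →
    MvPolynomial.aeval t P = 0 → P = 0

/-- Every polynomial `P(T, Y)` with algebraic coefficients and degree at most `D` which takes at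
`(t, y)` a value in `LinForms γ` has the form `P₀(T) + ∑ j, c j * Y j`. -/
def OnlyLinear (D : ℕ) {g l n : ℕ} (γ : Fin g → ℂ) (t : Fin l → ℂ) (y : Fin n → ℂ) : Prop :=
  ∀ P : MvPolynomial (Fin l ⊕ Fin n) (algebraicClosure ℚ ℂ), P.totalDegree ≤ D →
    MvPolynomial.aeval (Sum.elim t y) P ∈ LinForms γ →
    ∃ (P₀ : MvPolynomial (Fin l) (algebraicClosure ℚ ℂ)) (c : Fin n → algebraicClosure ℚ ℂ),
      P = MvPolynomial.rename Sum.inl P₀ +
        ∑ j, MvPolynomial.C (c j) * MvPolynomial.X (Sum.inr j)

/-- The numbers `L_j = ζ_j + ∑_i a_{j,i} λ_{j,i}`. -/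
noncomputable def logs {n k : ℕ} (ζ : Fin n → ℂ) (lam : Fin n → Fin k → ℂ) (a : Fin n → Fin k → ℚ)
    (j : Fin n) : ℂ := ζ j + ∑ i : Fin k, (a j i : ℂ) * lam j i

open Pool.Agent.H351R3.Log Pool.Agent.H301R2.SSE MvPolynomial

theorem linForms_eq {g : ℕ} (γ : Fin g → ℂ) :
    LinForms γ = (Lt ⊔ Submodule.span QB (Set.range γ) : Submodule QB ℂ) := by
  rw [LinForms, Lt, Submodule.span_union]

theorem decompose {l k : ℕ} (P : MvPolynomial (Fin l ⊕ Fin k) (algebraicClosure ℚ ℂ))
    (h : ∀ s ∈ P.support, Alw (spar (Fin k) (fun _ : Fin l => True)) s) :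
    ∃ (P₀ : MvPolynomial (Fin l) (algebraicClosure ℚ ℂ)) (c : Fin k → algebraicClosure ℚ ℂ),
      P = rename Sum.inl P₀ + ∑ j, C (c j) * X (Sum.inr j) := by
  classical
  set c : Fin k → algebraicClosure ℚ ℂ := fun j => coeff (Finsupp.single (Sum.inr j) 1) P with hc
  set Q := P - ∑ j, C (c j) * X (Sum.inr j) with hQ
  have hcoef : ∀ s, coeff s Q = coeff s P -
      ∑ j, c j * (if Finsupp.single (Sum.inr j) 1 = s then 1 else 0) := by
    intro s
    rw [hQ, coeff_sub, coeff_sum]
    simp only [coeff_C_mul, coeff_X]
  have hmem : Q ∈ Sq (algebraicClosure ℚ ℂ) (Fin l) (∅ : Finset (Fin k)) Q.totalDegree := by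
    intro s hs
    have hz : ∀ j, s (Sum.inr j) = 0 := by
      by_cases h1 : ∃ j : Fin k, Finsupp.single (Sum.inr j) 1 = s
      · exfalso
        obtain ⟨j, rfl⟩ := h1
        have h2 := hcoef (Finsupp.single (Sum.inr j) 1)
        rw [Finset.sum_eq_single j] at h2
        · rw [if_pos rfl, mul_one, hc, sub_self] at h2
          exact (MvPolynomial.mem_support_iff.1 hs) h2
        · intro i _ hij
          rw [if_neg, mul_zero]
          intro h3
          have := Finsupp.single_left_injective one_ne_zero h3
          exact hij (Sum.inr_injective this)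
        · intro h3; exact absurd (Finset.mem_univ _) h3
      · push Not at h1
        have h2 := hcoef s
        rw [Finset.sum_eq_zero (fun j _ => by rw [if_neg (h1 j), mul_zero]), sub_zero] at h2
        have h3 : s ∈ P.support := by
          rw [MvPolynomial.mem_support_iff, ← h2]
          exact MvPolynomial.mem_support_iff.1 hs
        rcases h s h3 with h4 | ⟨i, hi, h4⟩
        · intro j
          exact h4 (Sum.inr j) (fun h => h)
        · exfalso
          rcases i with i | j
          · exact hi trivial
          · exact h1 j h4.symm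
    refine ⟨(totalDegree_le_iff_mem _ _).1 le_rfl s hs, ?_, fun j _ => hz j⟩
    intro j
    rw [hz j]
    exact Nat.zero_le _
  obtain ⟨P₀, hP₀, _⟩ := Sq_empty hmem
  refine ⟨P₀, c, ?_⟩
  rw [← hP₀, hQ, sub_add_cancel]

open Classical in
/-- **Main result.** -/
theorem result (l n g D : ℕ) : ∃ (k₀ C : ℕ) (δ : ℝ), 0 < δ ∧ ∀ k ≥ k₀,
    ∀ lam : Fin n → Fin k → ℂ, (∀ j i, IsAlgebraic ℚ (Complex.exp (lam j i))) →
    (∀ j, LinearIndependent ℚ (lam j)) → ∀ A : Finset ℚ, A.Nonempty →
    ∀ (γ : Fin g → ℂ) (ζ : Fin n → ℂ) (t : Fin l → ℂ), NoRelationBelow D t →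
    (((Fintype.piFinset fun _ : Fin n => Fintype.piFinset fun _ : Fin k => A).filter
      (fun a : Fin n → Fin k → ℚ => ¬ OnlyLinear D γ t (logs ζ lam a))).card : ℝ) ≤
      C * (A.card : ℝ) ^ ((n * k : ℝ) - δ * k) := by
  obtain ⟨k₀, C, δ, hδ, h⟩ := Pool.Agent.Y918.OL.tuples n (Fin l) D (2 + (g + n) + (g + n))
  refine ⟨k₀, C, δ, hδ, fun k hk lam halg hlam A hA γ ζ t ht => ?_⟩
  have hrank : Module.rank QB (Submodule.span QB (Set.range γ ∪ Set.range ζ)) ≤ (g + n : ℕ) := by
    refine (rank_span_le _).trans ?_
    refine (Cardinal.mk_union_le _ _).trans ?_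
    push_cast
    refine add_le_add ?_ ?_
    · refine Cardinal.mk_range_le.trans ?_
      simp
    · refine Cardinal.mk_range_le.trans ?_
      simp
  have hV := KBd_sup (κ := QB) (C := ℂ) Lt (Submodule.span QB (Set.range γ ∪ Set.range ζ)) 2 (g + n)
    KBd_Lt hrank
  have ht' : NLP (κ := QB) (C := ℂ) (Lt ⊔ Submodule.span QB (Set.range γ ∪ Set.range ζ))
      (fun _ : Fin l => True) D t :=
    ⟨fun P _ _ s _ => Or.inl fun i hi => absurd trivial hi, fun P hP h0 => ht P hP h0⟩
  refine le_trans ?_ (h k hk lam halg hlam A hA _ le_sup_left hV ζ (fun j =>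
    Submodule.mem_sup_right (Submodule.subset_span (Or.inr ⟨j, rfl⟩))) (fun _ => True) t ht')
  apply Nat.cast_le.2
  apply Finset.card_le_card
  intro a ha
  rw [Finset.mem_filter] at ha ⊢
  refine ⟨ha.1, fun hN => ha.2 ?_⟩
  intro P hP hPV
  rw [linForms_eq] at hPV
  refine decompose P (hN.1 P hP ?_)
  have hle : (Lt ⊔ Submodule.span QB (Set.range γ) : Submodule QB ℂ) ≤
      Lt ⊔ Submodule.span QB (Set.range γ ∪ Set.range ζ) :=
    sup_le_sup_left (Submodule.span_mono Set.subset_union_left) _
  exact hle hPV

end Pool.Agent.Results.MP_60829e_nt.RandomOnlyLinear
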